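import Mathlib
import Pool.Agent.N897.AVR.R

set_option autoImplicit false

/-! Functions which are linear in a large prime factor of the argument, and exceptional sets of real numbers which contain long
intervals and whose measure has a saving of every power of the logarithm (helper527). -/

namespace Run7.h527.LP

open Finset Filter MeasureTheory Topology Classical
open Pool.Agent.N733.TG (Expanding step_sum expanding_pow)
open Pool.Agent.N375.AV (LogThin logThin_mono)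
open Pool.Agent.N897.AVR (logThin_dyadic logThin_heights logThin_union logThin_lt large)

/-- `g (k p) = A k * p + B k` for the large primes `p` which do not divide `k`, where `A k`, `B k` are integers of size at most
`K k ^ (1 + s)` for every `s > 0` -/
def Lin (g : ℕ → ℕ) : Prop :=
  ∃ (A B : ℕ → ℤ) (P : ℕ), (∀ s : ℝ, 0 < s → ∃ K : ℝ, ∀ k : ℕ, 2 ≤ k →
    |(A k : ℝ)| ≤ K * (k : ℝ) ^ (1 + s) ∧ |(B k : ℝ)| ≤ K * (k : ℝ) ^ (1 + s)) ∧
    ∀ k p : ℕ, 2 ≤ k → p.Prime → P ≤ p → ¬ p ∣ k → (g (k * p) : ℤ) = A k * p + B k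

/-- `m = k p` with `k ≥ 2` and a prime `p ≥ m ^ τ` which does not divide `k` -/
def One (τ : ℝ) (m : ℕ) : Prop :=
  ∃ k p : ℕ, 2 ≤ k ∧ p.Prime ∧ ¬ p ∣ k ∧ m = k * p ∧ (m : ℝ) ^ τ ≤ p

/-- disjoint intervals in a set -/
lemma disj_count (S : Finset ℕ) (y : ℕ → ℕ) (A Y : ℕ) (E : Set ℕ)
    (hy : ∀ p ∈ S, ∀ q ∈ S, p < q → y p + A ≤ y q)
    (hE : ∀ p ∈ S, ∀ u : ℕ, y p ≤ u → u < y p + A → u ∈ E) (hY : ∀ p ∈ S, y p + A ≤ Y) :
    S.card * A ≤ ((range (Y + 1)).filter (fun v => v ∈ E)).card := by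
  have h1 : (S.biUnion (fun p => Ico (y p) (y p + A))).card = S.card * A := by
    rw [card_biUnion]
    · simp
    · intro p hp q hq hpq
      rw [Function.onFun, Finset.disjoint_left]
      intro x hx hx'
      rw [mem_Ico] at hx hx'
      rcases lt_or_gt_of_ne hpq with h | h
      · have := hy p hp q hq h
        omega
      · have := hy q hq p hp h
        omega
  rw [← h1]
  apply card_le_card
  intro x hx
  rw [mem_biUnion] at hx
  obtain ⟨p, hp, hx⟩ := hx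
  rw [mem_Ico] at hx
  rw [mem_filter, mem_range]
  exact ⟨by have := hY p hp; omega, hE p hp x hx.1 hx.2⟩

/-- the count for one cofactor -/
lemma fibre {B : Set ℝ} {G : ℕ → ℝ} {a CG : ℝ} (ha : 0 < a) (hstep : ∀ v : ℕ, 1 ≤ v → a ≤ G (v + 1) - G v)
    (hCG : ∀ v : ℕ, 1 ≤ v → G v ≤ CG * v) {η η' : ℝ} {g : ℕ → ℕ} {k : ℕ} {A b : ℤ} {P : ℕ}
    (hg : ∀ p : ℕ, p.Prime → P ≤ p → ¬ p ∣ k → (g (k * p) : ℤ) = A * p + b) {Q W X V : ℝ} (hk : 1 ≤ k) (hX : 0 < X)
    (hA : |(A : ℝ)| ≤ Q) (hb : |(b : ℝ)| ≤ Q) (hW0 : 0 ≤ W)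
    (hV1 : 1 ≤ V) (hVQ : 2 * Q ≤ V) (hVW : W + 1 + Q ≤ V) (S : Finset ℕ)
    (hS : ∀ p ∈ S, p.Prime ∧ P ≤ p ∧ ¬ p ∣ k ∧ ((k * p : ℕ) : ℝ) ≤ 2 * X ∧ V ≤ (g (k * p) : ℝ) ∧
      0 ≤ G (g (k * p)) ∧ (g (k * p) : ℝ) ^ η ≤ a * W ∧ a * (W + 1 + Q) + 2 ≤ (g (k * p) : ℝ) ^ η' ∧
      Set.Icc (G (g (k * p)) + (g (k * p) : ℝ) ^ η) (G (g (k * p)) + (g (k * p) : ℝ) ^ η') ⊆ B) (hne : S.Nonempty) :
    ∃ (An Y : ℕ), 1 ≤ An ∧ V ≤ Y ∧ (Y : ℝ) ≤ 4 * (|CG| / a + 2) * An * (X / k) ∧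
      S.card * An ≤ ((range (Y + 1)).filter (fun v => v ∈ {v : ℕ | Set.Ico (a * (v : ℝ) ^ (1 : ℝ))
        (a * (v : ℝ) ^ (1 : ℝ) + 2) ⊆ B})).card := by
  obtain ⟨p₀, hp₀⟩ := hne
  have hk0 : (0 : ℝ) < k := by exact_mod_cast hk
  -- size of the linear part
  have hlin : ∀ p ∈ S, (g (k * p) : ℝ) = A * p + b := fun p hp => by
    obtain ⟨h1, h2, h3, -⟩ := hS p hp
    exact_mod_cast hg p h1 h2 h3
  have hAp : ∀ p ∈ S, (g (k * p) : ℝ) ≤ 2 * (A * p) := fun p hp => by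
    have h1 := hlin p hp
    have h2 := (hS p hp).2.2.2.2.1
    have h3 := (abs_le.1 hb).2
    linarith
  have hA1 : 1 ≤ A := by
    by_contra hcon
    have h1 : A ≤ 0 := by omega
    have h2 : (A : ℝ) ≤ 0 := by exact_mod_cast h1
    have h3 := hAp p₀ hp₀
    have h4 := (hS p₀ hp₀).2.2.2.2.1
    have h5 : (A : ℝ) * p₀ ≤ 0 := mul_nonpos_of_nonpos_of_nonneg h2 (Nat.cast_nonneg _)
    linarith
  obtain ⟨An, rfl⟩ : ∃ n : ℕ, A = n := ⟨A.toNat, by omega⟩
  have hAn : 1 ≤ An := by exact_mod_cast hA1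
  have hAnr : (1 : ℝ) ≤ An := by exact_mod_cast hAn
  have hAnQ : (An : ℝ) ≤ Q := by
    have := (abs_le.1 hA).2
    exact_mod_cast this
  simp only [Int.cast_natCast] at hlin hAp
  have hvX : ∀ p ∈ S, (g (k * p) : ℝ) ≤ 4 * An * (X / k) := fun p hp => by
    have h1 := hAp p hp
    have h2 := (hS p hp).2.2.2.1
    push_cast at h2
    have h3 : (p : ℝ) ≤ 2 * X / k := by
      rw [le_div_iff₀ hk0]
      linarith
    calc (g (k * p) : ℝ) ≤ 2 * (An * p) := h1
      _ ≤ 2 * (An * (2 * X / k)) := by gcongr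
      _ = 4 * An * (X / k) := by ring
  have hG0 : ∀ p ∈ S, 1 ≤ g (k * p) := fun p hp => by
    have := (hS p hp).2.2.2.2.1
    exact_mod_cast hV1.trans this
  have hD0 : 0 ≤ |CG| / a := by positivity
  have hXk : 0 < X / k := by positivity
  obtain ⟨D, hD⟩ : ∃ D : ℝ, D = 4 * (|CG| / a + 2) * An * (X / k) := ⟨_, rfl⟩
  have hDv : ∀ p ∈ S, (|CG| / a + 1) * (g (k * p) : ℝ) + (g (k * p) : ℝ) ≤ D := fun p hp => by
    have h1 := hvX p hp
    have h2 : (|CG| / a + 2) * (g (k * p) : ℝ) ≤ (|CG| / a + 2) * (4 * An * (X / k)) :=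
      mul_le_mul_of_nonneg_left h1 (by positivity)
    rw [hD]
    linarith
  have hspace : ∀ v w : ℕ, 1 ≤ v → v ≤ w → G v / a + ((w : ℝ) - v) ≤ G w / a := fun v w hv hvw => by
    have h1 := step_sum hstep hv hvw
    have h2 : ((w - v : ℕ) : ℝ) = (w : ℝ) - v := by rw [Nat.cast_sub hvw]
    rw [h2] at h1
    rw [div_add' _ _ _ ha.ne']
    gcongr
    linarith
  have hV0 : 0 ≤ D := by
    have h1 := hDv p₀ hp₀
    have h2 : 0 ≤ (|CG| / a + 1) * (g (k * p₀) : ℝ) := by positivity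
    have h3 : (0 : ℝ) ≤ (g (k * p₀) : ℝ) := Nat.cast_nonneg _
    linarith
  refine ⟨An, ⌊D⌋₊, hAn, ?_, (Nat.floor_le hV0).trans hD.le, ?_⟩
  · -- V ≤ Y
    have h1 := hDv p₀ hp₀
    have h2 := (hS p₀ hp₀).2.2.2.2.1
    have h6 := Nat.lt_floor_add_one D
    have h7 : 0 ≤ |CG| / a * (g (k * p₀) : ℝ) := by positivity
    linarith
  · refine disj_count S (fun p => ⌈G (g (k * p)) / a + W⌉₊) An _ _ ?_ ?_ ?_
    · intro p hp q hq hpq
      have h1 := hlin p hp
      have h2 := hlin q hq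
      have h3 : (An : ℝ) ≤ (g (k * q) : ℝ) - g (k * p) := by
        rw [h1, h2]
        have h4 : (p : ℝ) + 1 ≤ q := by exact_mod_cast hpq
        nlinarith
      have h5 : g (k * p) ≤ g (k * q) := by
        have : (g (k * p) : ℝ) ≤ g (k * q) := by linarith
        exact_mod_cast this
      have h6 := hspace _ _ (hG0 p hp) h5
      have h7 : 0 ≤ G (g (k * p)) / a + W := by
        have := (hS p hp).2.2.2.2.2.1
        positivity
      rw [← Nat.ceil_add_natCast h7]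
      apply Nat.ceil_le_ceil
      linarith
    · intro p hp u hu1 hu2
      obtain ⟨-, -, -, -, q1, q2, q3, q4, q5⟩ := hS p hp
      have h7 : 0 ≤ G (g (k * p)) / a + W := by positivity
      have h1 : G (g (k * p)) / a + W ≤ u := Nat.ceil_le.1 hu1
      have h2 : (u : ℝ) ≤ G (g (k * p)) / a + W + 1 + An := by
        have h3 := Nat.ceil_lt_add_one h7
        have h4 : (u : ℝ) < ((⌈G (g (k * p)) / a + W⌉₊ + An : ℕ) : ℝ) := by exact_mod_cast hu2
        push_cast at h4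
        linarith
      have h1' : G (g (k * p)) + a * W ≤ a * u := by
        have h3 := mul_le_mul_of_nonneg_left h1 ha.le
        have h4 : a * (G (g (k * p)) / a + W) = G (g (k * p)) + a * W := by
          field_simp
        linarith
      have h2' : a * u ≤ G (g (k * p)) + a * (W + 1 + Q) := by
        have h3 := mul_le_mul_of_nonneg_left h2 ha.le
        have h4 : a * (G (g (k * p)) / a + W + 1 + An) = G (g (k * p)) + a * (W + 1 + An) := by
          field_simp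
          ring
        have h5 : a * (W + 1 + An) ≤ a * (W + 1 + Q) := mul_le_mul_of_nonneg_left (by linarith) ha.le
        linarith
      show Set.Ico (a * (u : ℝ) ^ (1 : ℝ)) (a * (u : ℝ) ^ (1 : ℝ) + 2) ⊆ B
      rw [Real.rpow_one]
      rintro x ⟨hx1, hx2⟩
      exact q5 ⟨by linarith, by linarith⟩
    · intro p hp
      apply Nat.le_floor
      obtain ⟨-, -, -, -, q1, q2, q3, q4, q5⟩ := hS p hp
      have h7 : 0 ≤ G (g (k * p)) / a + W := by positivity
      have h3 := Nat.ceil_lt_add_one h7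
      have h4 := hCG _ (hG0 p hp)
      have h5 : G (g (k * p)) / a ≤ |CG| / a * (g (k * p) : ℝ) := by
        rw [div_mul_eq_mul_div]
        gcongr
        exact h4.trans (mul_le_mul_of_nonneg_right (le_abs_self _) (Nat.cast_nonneg _))
      have h6 := hDv p hp
      push_cast
      linarith

end Run7.h527.LP
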