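import Mathlib
import Pool.Agent.Run7.h527.LP.A

set_option autoImplicit false

/-! The engine: for a function `g` which is linear in a large prime factor, the values `g m` avoid the exceptional heights for
all `m` with a large prime factor but a set with a saving of every power of the logarithm (helper527). -/

namespace Run7.h527.LP

open Finset Filter MeasureTheory Topology Classical
open Pool.Agent.N733.TG (Expanding step_sum expanding_pow)
open Pool.Agent.N375.AV (LogThin logThin_mono)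
open Pool.Agent.N897.AVR (logThin_dyadic logThin_heights logThin_union logThin_lt large)

lemma ev_le {x y : ℝ} (hxy : x < y) (C : ℝ) : ∀ᶠ X : ℝ in atTop, C * X ^ x ≤ X ^ y := by
  have h1 := (tendsto_rpow_atTop (show 0 < y - x by linarith)).eventually (eventually_ge_atTop C)
  filter_upwards [h1, eventually_gt_atTop (0 : ℝ)] with X h2 h3
  calc C * X ^ x ≤ X ^ (y - x) * X ^ x := mul_le_mul_of_nonneg_right h2 (Real.rpow_nonneg h3.le _)
    _ = X ^ y := by rw [← Real.rpow_add h3, sub_add_cancel]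

lemma harm_le (n : ℕ) : ∑ k ∈ Icc 1 n, (1 : ℝ) / k ≤ 1 + Real.log n := by
  have h1 := harmonic_le_one_add_log n
  have h2 : ∑ k ∈ Icc 1 n, (1 : ℝ) / k = (harmonic n : ℝ) := by
    rw [harmonic_eq_sum_Icc]
    push_cast
    exact Finset.sum_congr rfl fun i _ => by rw [one_div]
  rw [h2]
  exact h1

/-- **the engine** -/
theorem lin_log {B : Set ℝ} (hB : ∀ U : ℕ, ∃ T₀ : ℝ, ∀ T : ℝ, T₀ ≤ T →
    volume (B ∩ Set.Icc T (2 * T)) ≤ ENNReal.ofReal (T / Real.log T ^ U)) {G : ℕ → ℝ} (hG : Expanding G 1)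
    {g : ℕ → ℕ} (hg : Lin g) {η η' τ : ℝ} (hη : 0 ≤ η) (h1 : η < η') (h2 : 1 - τ < η') (hτ : τ ≤ 1) (hη'1 : η' ≤ 1) :
    ∃ σ : ℝ, 0 < σ ∧ ∀ (Bad : Set ℕ) (v₀ : ℕ), (∀ v : ℕ, v₀ ≤ v → v ∈ Bad →
      Set.Icc (G v + (v : ℝ) ^ η) (G v + (v : ℝ) ^ η') ⊆ B) →
      LogThin {m : ℕ | One τ m ∧ (m : ℝ) ^ (1 - σ) ≤ g m ∧ g m ∈ Bad} := by
  obtain ⟨A, b, P, hK, hform⟩ := hg
  obtain ⟨a, ha, hstep⟩ := hG.step
  obtain ⟨CG, hCG'⟩ := hG.growth
  have hCG : ∀ v : ℕ, 1 ≤ v → G v ≤ CG * v := fun v hv => by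
    have := hCG' v hv
    rwa [Real.rpow_one] at this
  obtain ⟨m0, hm0⟩ : ∃ m0 : ℝ, m0 = max η (1 - τ) := ⟨_, rfl⟩
  have m1 : η ≤ m0 := hm0 ▸ le_max_left _ _
  have m2 : 1 - τ ≤ m0 := hm0 ▸ le_max_right _ _
  have m3 : m0 < η' := hm0 ▸ max_lt h1 h2
  have m4 : 0 ≤ m0 := hη.trans m1
  obtain ⟨η₁, hη₁⟩ : ∃ x : ℝ, x = (m0 + η') / 2 := ⟨_, rfl⟩
  obtain ⟨s, hs⟩ : ∃ x : ℝ, x = (η₁ - m0) / 2 := ⟨_, rfl⟩
  obtain ⟨σ, hσ⟩ : ∃ x : ℝ, x = (η' - η₁) / 2 := ⟨_, rfl⟩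
  have s0 : 0 < s := by linarith
  have σ0 : 0 < σ := by linarith
  have σ1 : σ ≤ 1 / 2 := by linarith
  have c1 : (1 - τ) * (1 + s) < η₁ := by
    have : (1 - τ) * (1 + s) ≤ m0 * (1 + s) := mul_le_mul_of_nonneg_right m2 (by linarith)
    have h3 : m0 * s ≤ 1 * s := mul_le_mul_of_nonneg_right (by linarith) s0.le
    linarith
  have c2 : (1 + s) * η < η₁ := by
    have : η * (1 + s) ≤ m0 * (1 + s) := mul_le_mul_of_nonneg_right m1 (by linarith)
    have h3 : m0 * s ≤ 1 * s := mul_le_mul_of_nonneg_right (by linarith) s0.le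
    linarith
  have c3 : η₁ < (1 - σ) * η' := by
    have h3 : σ * η' ≤ σ * 1 := mul_le_mul_of_nonneg_left hη'1 σ0.le
    linarith
  have c4 : η₁ < 1 - σ := by
    have h3 : (1 - σ) * η' ≤ (1 - σ) * 1 := mul_le_mul_of_nonneg_left hη'1 (by linarith)
    linarith
  have c5 : 0 < η₁ := by linarith
  have c6 : 0 < τ := by linarith
  obtain ⟨K₀, hK₀⟩ := hK s s0
  obtain ⟨K, hKdef⟩ : ∃ x : ℝ, x = |K₀| + 1 := ⟨_, rfl⟩
  have hK0 : 0 < K := by rw [hKdef]; positivity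
  have hKb : ∀ k : ℕ, 2 ≤ k → |(A k : ℝ)| ≤ K * (k : ℝ) ^ (1 + s) ∧ |(b k : ℝ)| ≤ K * (k : ℝ) ^ (1 + s) := fun k hk => by
    have h3 : K₀ * (k : ℝ) ^ (1 + s) ≤ K * (k : ℝ) ^ (1 + s) :=
      mul_le_mul_of_nonneg_right (by rw [hKdef]; linarith [le_abs_self K₀]) (by positivity)
    exact ⟨(hK₀ k hk).1.trans h3, (hK₀ k hk).2.trans h3⟩
  refine ⟨σ, σ0, fun Bad v₀ hbad => logThin_dyadic fun U => ?_⟩
  obtain ⟨KE, hKE⟩ := logThin_heights hB (expanding_pow ha le_rfl) (U + 2)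
  obtain ⟨D, hD⟩ : ∃ x : ℝ, x = 4 * (|CG| / a + 2) := ⟨_, rfl⟩
  have hD0 : 0 < D := by rw [hD]; positivity
  obtain ⟨M, hM⟩ : ∃ x : ℝ, x = |KE| * D * 2 ^ (U + 2) := ⟨_, rfl⟩
  have hM0 : 0 ≤ M := by rw [hM]; positivity
  obtain ⟨q₀, hq₀⟩ := large ha hstep 0
  -- eventual estimates
  have e1 := ev_le c1 (K * 2 ^ (1 + s))
  have e2 := ev_le c4 4
  have e3 := ev_le c2 ((2 * K * 2 ^ (1 + s)) ^ η / a)
  have e4 := ev_le c3 (3 * a + 2)
  have e5 := (tendsto_rpow_atTop (show 0 < 1 - σ by linarith)).eventually (eventually_ge_atTop ((q₀ : ℝ) + v₀ + 1))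
  have e6 := (tendsto_rpow_atTop c6).eventually (eventually_ge_atTop (P : ℝ))
  have e7 := Real.tendsto_log_atTop.eventually (eventually_ge_atTop (3 * M + 1))
  obtain ⟨X₁, hX₁⟩ := eventually_atTop.1 ((((e1.and e2).and (e3.and e4)).and ((e5.and e6).and e7)).and
    (eventually_ge_atTop (3 : ℝ)))
  obtain ⟨X₀, hX₀⟩ := exists_nat_ge X₁
  refine ⟨X₀, fun X hX => ?_⟩
  obtain ⟨⟨⟨⟨f1, f2⟩, f3, f4⟩, ⟨f5, f6⟩, f7⟩, f8⟩ := hX₁ X (hX₀.trans (by exact_mod_cast hX))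
  have hX0 : (0 : ℝ) < X := by linarith
  have hX1 : (1 : ℝ) ≤ X := by linarith
  have hL : 1 ≤ Real.log X := by linarith
  have hL0 : 0 < Real.log X := by linarith
  have w1 : 1 ≤ (X : ℝ) ^ η₁ := Real.one_le_rpow hX1 c5.le
  -- the fibres
  obtain ⟨S, hS⟩ : ∃ S : ℕ → Finset ℕ, S = fun k => (range (2 * X)).filter (fun p => p.Prime ∧ ¬ p ∣ k ∧ X ≤ k * p ∧
    k * p < 2 * X ∧ ((k * p : ℕ) : ℝ) ^ τ ≤ p ∧ ((k * p : ℕ) : ℝ) ^ (1 - σ) ≤ g (k * p) ∧ g (k * p) ∈ Bad) := ⟨_, rfl⟩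
  have key : ∀ k ∈ Icc 1 (2 * X), ((if 2 ≤ k then (S k).card else 0 : ℕ) : ℝ) ≤ M * X / Real.log X ^ (U + 2) * (1 / k) := by
    intro k hk
    rw [mem_Icc] at hk
    have hk0 : (0 : ℝ) < k := by exact_mod_cast hk.1
    split_ifs with hk2
    swap
    · push_cast
      positivity
    rcases (S k).eq_empty_or_nonempty with hemp | hne
    · rw [hemp, card_empty, Nat.cast_zero]
      positivity
    · have hmem : ∀ p ∈ S k, p.Prime ∧ ¬ p ∣ k ∧ X ≤ k * p ∧ k * p < 2 * X ∧ ((k * p : ℕ) : ℝ) ^ τ ≤ p ∧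
          ((k * p : ℕ) : ℝ) ^ (1 - σ) ≤ g (k * p) ∧ g (k * p) ∈ Bad := fun p hp => by
        rw [hS] at hp
        exact (mem_filter.1 hp).2
      -- the size of k
      have hk3 : (k : ℝ) ≤ 2 * (X : ℝ) ^ (1 - τ) := by
        obtain ⟨p, hp⟩ := hne
        obtain ⟨-, -, q3, q4, q5, -, -⟩ := hmem p hp
        have r1 : (X : ℝ) ≤ ((k * p : ℕ) : ℝ) := by exact_mod_cast q3
        have r2 : (X : ℝ) ^ τ ≤ p := (Real.rpow_le_rpow hX0.le r1 c6.le).trans q5
        have r3 : (k : ℝ) * p ≤ 2 * X := by exact_mod_cast q4.le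
        have r4 : (0 : ℝ) < (X : ℝ) ^ τ := by positivity
        have r5 : (k : ℝ) * (X : ℝ) ^ τ ≤ 2 * X := (mul_le_mul_of_nonneg_left r2 hk0.le).trans r3
        have r6 : (X : ℝ) ^ (1 - τ) * (X : ℝ) ^ τ = X := by
          rw [← Real.rpow_add hX0, sub_add_cancel, Real.rpow_one]
        have r7 : (k : ℝ) * (X : ℝ) ^ τ ≤ (2 * (X : ℝ) ^ (1 - τ)) * (X : ℝ) ^ τ := by
          rw [mul_assoc, r6]
          exact r5
        exact le_of_mul_le_mul_right r7 r4
      have hkX : (k : ℝ) ≤ 2 * X := by exact_mod_cast hk.2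
      have hkQ : K * (k : ℝ) ^ (1 + s) ≤ (X : ℝ) ^ η₁ := by
        refine le_trans ?_ f1
        rw [mul_assoc]
        apply mul_le_mul_of_nonneg_left _ hK0.le
        calc (k : ℝ) ^ (1 + s) ≤ (2 * (X : ℝ) ^ (1 - τ)) ^ (1 + s) := Real.rpow_le_rpow hk0.le hk3 (by linarith)
          _ = 2 ^ (1 + s) * (X : ℝ) ^ ((1 - τ) * (1 + s)) := by
            rw [Real.mul_rpow (by norm_num) (by positivity), ← Real.rpow_mul hX0.le]
      have hvup : ∀ p ∈ S k, (g (k * p) : ℝ) ^ η ≤ a * (X : ℝ) ^ η₁ := by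
        intro p hp
        obtain ⟨q1, q2, q3, q4, q5, q6, q7⟩ := hmem p hp
        have r1 : (X : ℝ) ≤ ((k * p : ℕ) : ℝ) := by exact_mod_cast q3
        have r2 : (X : ℝ) ^ τ ≤ p := (Real.rpow_le_rpow hX0.le r1 c6.le).trans q5
        have r3 : P ≤ p := by exact_mod_cast f6.trans r2
        have r4 := hform k p hk2 q1 r3 q2
        have r5 : (g (k * p) : ℝ) = A k * p + b k := by exact_mod_cast r4
        have r6 : (k : ℝ) * p ≤ 2 * X := by exact_mod_cast q4.le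
        have r7 : (g (k * p) : ℝ) ≤ 2 * K * 2 ^ (1 + s) * (X : ℝ) ^ (1 + s) := by
          have t1 := (hKb k hk2).1
          have t2 := (hKb k hk2).2
          have t3 : (A k : ℝ) * p ≤ K * (k : ℝ) ^ (1 + s) * p :=
            mul_le_mul_of_nonneg_right ((le_abs_self _).trans t1) (Nat.cast_nonneg _)
          have t4 : (k : ℝ) ^ (1 + s) * p ≤ (2 * X) ^ (1 + s) := by
            rw [Real.rpow_add hk0, Real.rpow_one, Real.rpow_add (by positivity), Real.rpow_one]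
            calc (k : ℝ) * (k : ℝ) ^ s * p = (k * p) * (k : ℝ) ^ s := by ring
              _ ≤ (2 * X) * (2 * X) ^ s := mul_le_mul r6 (Real.rpow_le_rpow hk0.le hkX s0.le) (by positivity) (by positivity)
          have t5 : (k : ℝ) ^ (1 + s) ≤ (2 * X) ^ (1 + s) := Real.rpow_le_rpow hk0.le hkX (by linarith)
          have t6 : ((2 : ℝ) * X) ^ (1 + s) = 2 ^ (1 + s) * (X : ℝ) ^ (1 + s) := Real.mul_rpow (by norm_num) hX0.le
          have t7 := (le_abs_self _).trans t2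
          rw [r5]
          calc (A k : ℝ) * p + b k ≤ K * ((k : ℝ) ^ (1 + s) * p) + K * (k : ℝ) ^ (1 + s) := by linarith
            _ ≤ K * (2 * X) ^ (1 + s) + K * (2 * X) ^ (1 + s) := by gcongr
            _ = 2 * K * 2 ^ (1 + s) * (X : ℝ) ^ (1 + s) := by rw [t6]; ring
        calc (g (k * p) : ℝ) ^ η ≤ (2 * K * 2 ^ (1 + s) * (X : ℝ) ^ (1 + s)) ^ η :=
              Real.rpow_le_rpow (Nat.cast_nonneg _) r7 hη
          _ = (2 * K * 2 ^ (1 + s)) ^ η * (X : ℝ) ^ ((1 + s) * η) := by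
              rw [Real.mul_rpow (by positivity) (by positivity), ← Real.rpow_mul hX0.le]
          _ = a * ((2 * K * 2 ^ (1 + s)) ^ η / a * (X : ℝ) ^ ((1 + s) * η)) := by
              field_simp
          _ ≤ a * (X : ℝ) ^ η₁ := mul_le_mul_of_nonneg_left f3 ha.le
      obtain ⟨An, Y, y1, y2, y3, y4⟩ := fibre (B := B) (G := G) (η := η) (η' := η') (k := k) (A := A k) (b := b k) (P := P)
        (Q := (X : ℝ) ^ η₁) (W := (X : ℝ) ^ η₁) (X := X) (V := (X : ℝ) ^ (1 - σ)) ha hstep hCG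
        (fun p q1 q2 q3 => hform k p hk2 q1 q2 q3) hk.1 hX0 ((hKb k hk2).1.trans hkQ) ((hKb k hk2).2.trans hkQ)
        (by linarith) (by linarith) (by linarith) (by linarith) (S k) (fun p hp => by
          obtain ⟨q1, q2, q3, q4, q5, q6, q7⟩ := hmem p hp
          have r1 : (X : ℝ) ≤ ((k * p : ℕ) : ℝ) := by exact_mod_cast q3
          have r2 : (X : ℝ) ^ τ ≤ p := (Real.rpow_le_rpow hX0.le r1 c6.le).trans q5
          have r3 : P ≤ p := by exact_mod_cast f6.trans r2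
          have r4 : (X : ℝ) ^ (1 - σ) ≤ g (k * p) := (Real.rpow_le_rpow hX0.le r1 (by linarith)).trans q6
          have r5 : q₀ ≤ g (k * p) := by
            have : (q₀ : ℝ) ≤ g (k * p) := by
              have : (0 : ℝ) ≤ v₀ := Nat.cast_nonneg _
              linarith
            exact_mod_cast this
          have r6 : v₀ ≤ g (k * p) := by
            have : (v₀ : ℝ) ≤ g (k * p) := by
              have : (0 : ℝ) ≤ q₀ := Nat.cast_nonneg _
              linarith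
            exact_mod_cast this
          refine ⟨q1, r3, q2, by exact_mod_cast q4.le, r4, hq₀ _ r5, hvup p hp, ?_, hbad _ r6 q7⟩
          calc a * ((X : ℝ) ^ η₁ + 1 + (X : ℝ) ^ η₁) + 2 ≤ (3 * a + 2) * (X : ℝ) ^ η₁ := by nlinarith
            _ ≤ (X : ℝ) ^ ((1 - σ) * η') := f4
            _ = ((X : ℝ) ^ (1 - σ)) ^ η' := by rw [Real.rpow_mul hX0.le]
            _ ≤ (g (k * p) : ℝ) ^ η' := Real.rpow_le_rpow (by positivity) r4 (by linarith)) hne
      have hY1 : (1 : ℝ) ≤ Y := by linarith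
      have z1 := hKE Y (by exact_mod_cast hY1)
      have z2 : (((S k).card * An : ℕ) : ℝ) ≤ KE * Y / (1 + Real.log Y) ^ (U + 2) :=
        (show (((S k).card * An : ℕ) : ℝ) ≤ _ by exact_mod_cast y4).trans z1
      have z3 : Real.log X / 2 ≤ 1 + Real.log Y := by
        have t1 := Real.log_le_log (by positivity) y2
        rw [Real.log_rpow hX0] at t1
        have t2 : 1 / 2 * Real.log X ≤ (1 - σ) * Real.log X := mul_le_mul_of_nonneg_right (by linarith) hL0.le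
        linarith
      have hAn0 : (0 : ℝ) < An := by exact_mod_cast y1
      have z4 : KE * Y / (1 + Real.log Y) ^ (U + 2) ≤ |KE| * (D * An * (X / k)) / (Real.log X / 2) ^ (U + 2) := by
        apply div_le_div₀ (by positivity) _ (by positivity) (pow_le_pow_left₀ (by positivity) z3 _)
        rw [hD]
        calc KE * Y ≤ |KE| * Y := mul_le_mul_of_nonneg_right (le_abs_self _) (Nat.cast_nonneg _)
          _ ≤ _ := mul_le_mul_of_nonneg_left y3 (abs_nonneg _)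
      have z5 : |KE| * (D * An * (X / k)) / (Real.log X / 2) ^ (U + 2) =
          (M * X / Real.log X ^ (U + 2) * (1 / k)) * An := by
        rw [hM, div_pow]
        field_simp
      have z6 := z2.trans (z4.trans z5.le)
      push_cast at z6
      exact le_of_mul_le_mul_right z6 hAn0
  have hsub : (Ico X (2 * X)).filter (fun n => n ∈ {m : ℕ | One τ m ∧ (m : ℝ) ^ (1 - σ) ≤ g m ∧ g m ∈ Bad}) ⊆
      (Icc 1 (2 * X)).biUnion (fun k => if 2 ≤ k then (S k).image (fun p => k * p) else ∅) := by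
    intro m hm
    rw [mem_filter, mem_Ico] at hm
    obtain ⟨⟨hm1, hm2⟩, ⟨k, p, k1, k2, k3, rfl, k5⟩, hm4, hm5⟩ := hm
    have hp1 : 1 ≤ p := k2.pos
    have hk : k ≤ 2 * X := by nlinarith
    have hp : p < 2 * X := by nlinarith
    rw [mem_biUnion]
    refine ⟨k, mem_Icc.2 ⟨by omega, hk⟩, ?_⟩
    rw [if_pos k1, mem_image]
    refine ⟨p, ?_, rfl⟩
    rw [hS]
    exact mem_filter.2 ⟨mem_range.2 hp, k2, k3, hm1, hm2, k5, hm4, hm5⟩
  have hcard : (((Ico X (2 * X)).filter (fun n => n ∈ {m : ℕ | One τ m ∧ (m : ℝ) ^ (1 - σ) ≤ g m ∧ g m ∈ Bad})).card : ℝ) ≤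
      ∑ k ∈ Icc 1 (2 * X), ((if 2 ≤ k then (S k).card else 0 : ℕ) : ℝ) := by
    have t1 := (card_le_card hsub).trans card_biUnion_le
    have t2 : ∑ k ∈ Icc 1 (2 * X), (if 2 ≤ k then (S k).image (fun p => k * p) else ∅).card ≤
        ∑ k ∈ Icc 1 (2 * X), (if 2 ≤ k then (S k).card else 0) := by
      apply sum_le_sum
      intro k _
      split_ifs
      · exact card_image_le
      · simp
    exact_mod_cast t1.trans t2
  have hlog2 : Real.log ((2 * X : ℕ) : ℝ) ≤ 1 + Real.log X := by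
    push_cast
    rw [Real.log_mul (by norm_num) hX0.ne']
    have := Real.log_two_lt_d9
    linarith
  refine le_trans (le_trans (le_of_eq ?_) hcard) ?_
  · congr!
  calc ∑ k ∈ Icc 1 (2 * X), ((if 2 ≤ k then (S k).card else 0 : ℕ) : ℝ) ≤ ∑ k ∈ Icc 1 (2 * X), M * X / Real.log X ^ (U + 2) * (1 / k) := sum_le_sum key
    _ = M * X / Real.log X ^ (U + 2) * ∑ k ∈ Icc 1 (2 * X), (1 : ℝ) / k := by rw [mul_sum]
    _ ≤ M * X / Real.log X ^ (U + 2) * (1 + Real.log ((2 * X : ℕ) : ℝ)) :=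
        mul_le_mul_of_nonneg_left (harm_le _) (by positivity)
    _ ≤ M * X / Real.log X ^ (U + 2) * (3 * Real.log X) :=
        mul_le_mul_of_nonneg_left (by linarith) (by positivity)
    _ = (3 * M) * (X / Real.log X ^ (U + 1)) := by
        field_simp
        ring
    _ ≤ Real.log X * (X / Real.log X ^ (U + 1)) := mul_le_mul_of_nonneg_right (by linarith) (by positivity)
    _ = X / Real.log X ^ U := by
        field_simp
        ring

end Run7.h527.LP
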