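import Mathlib
import Pool.Agent.Run7.h527.LP.B
import Pool.Agent.Run7.h527.TP.Cb
import Pool.Agent.Run7.h527.AD.Rough

set_option autoImplicit false

/-! Examples of functions which are linear in a large prime factor, and the passage to nearly all integers (helper527). -/

namespace Run7.h527.LP

open Finset Filter Topology
open Run7.h527.TP (Two density comb sig deriv aliquot cototient sig_mul sig_prime sig_growth deriv_mul deriv_prime deriv_le
  aliquot_eq cototient_eq sig_eq aliquot_pos deriv_pos)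
open Pool.Agent.N375.AV (LogThin)

/-- `g m ≥ m ^ (1 - σ)` for nearly all `m` -/
def Big (g : ℕ → ℕ) : Prop :=
  ∀ σ ε : ℝ, 0 < σ → 0 < ε → ∃ N₀ : ℕ, ∀ N : ℕ, N₀ ≤ N →
    ({m : ℕ | 1 ≤ m ∧ m ≤ N ∧ ¬ (m : ℝ) ^ (1 - σ) ≤ g m}.ncard : ℝ) ≤ ε * N

lemma pow_growth {f : ℕ → ℕ} (hf : ∀ ε : ℝ, 0 < ε → ∃ C : ℝ, ∀ m : ℕ, 1 ≤ m → (f m : ℝ) ≤ C * (m : ℝ) ^ (1 + ε))
    (u v : ℤ) (s : ℝ) (hs : 0 < s) : ∃ K : ℝ, ∀ k : ℕ, 2 ≤ k → |((u * k + v * f k : ℤ) : ℝ)| ≤ K * (k : ℝ) ^ (1 + s) := by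
  obtain ⟨C, hC⟩ := hf s hs
  refine ⟨|(u : ℝ)| + |(v : ℝ)| * C, fun k hk => ?_⟩
  have hk1 : (1 : ℝ) ≤ k := by exact_mod_cast (by omega : 1 ≤ k)
  have h1 : (k : ℝ) ≤ (k : ℝ) ^ (1 + s) := by
    conv_lhs => rw [← Real.rpow_one (k : ℝ)]
    exact Real.rpow_le_rpow_of_exponent_le hk1 (by linarith)
  push_cast
  calc |(u : ℝ) * k + v * f k| ≤ |(u : ℝ) * k| + |(v : ℝ) * f k| := abs_add_le _ _
    _ = |(u : ℝ)| * k + |(v : ℝ)| * f k := by
        rw [abs_mul, abs_mul, abs_of_nonneg (by linarith : (0 : ℝ) ≤ k),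
          abs_of_nonneg (by positivity : (0 : ℝ) ≤ (f k : ℝ))]
    _ ≤ |(u : ℝ)| * (k : ℝ) ^ (1 + s) + |(v : ℝ)| * (C * (k : ℝ) ^ (1 + s)) :=
        add_le_add (mul_le_mul_of_nonneg_left h1 (abs_nonneg _))
          (mul_le_mul_of_nonneg_left (hC k (by omega)) (abs_nonneg _))
    _ = _ := by ring

/-- `α m + β f(m)` for a multiplicative `f` with `f(p) = p + c` -/
theorem lin_mul {f : ℕ → ℕ} {c : ℤ} (hmul : ∀ m n : ℕ, Nat.Coprime m n → f (m * n) = f m * f n)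
    (hprime : ∀ p : ℕ, p.Prime → (f p : ℤ) = p + c)
    (hgr : ∀ ε : ℝ, 0 < ε → ∃ C : ℝ, ∀ m : ℕ, 1 ≤ m → (f m : ℝ) ≤ C * (m : ℝ) ^ (1 + ε)) {α β : ℤ}
    (hpos : ∀ m : ℕ, 2 ≤ m → 0 < α * m + β * f m) : Lin (comb α β f) := by
  refine ⟨fun k => α * k + β * f k, fun k => 0 * k + (β * c) * f k, 0, fun s hs => ?_, ?_⟩
  · obtain ⟨K₁, h1⟩ := pow_growth hgr α β s hs
    obtain ⟨K₂, h2⟩ := pow_growth hgr 0 (β * c) s hs
    refine ⟨max K₁ K₂, fun k hk => ⟨(h1 k hk).trans ?_, (h2 k hk).trans ?_⟩⟩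
    · exact mul_le_mul_of_nonneg_right (le_max_left _ _) (by positivity)
    · exact mul_le_mul_of_nonneg_right (le_max_right _ _) (by positivity)
  · intro k p hk hp _ hpk
    have c1 : Nat.Coprime k p := ((Nat.Prime.coprime_iff_not_dvd hp).2 hpk).symm
    have hkp : 2 ≤ k * p := le_trans hk (Nat.le_mul_of_pos_right k hp.pos)
    have p1 := hpos (k * p) hkp
    have e3 : ((comb α β f (k * p) : ℕ) : ℤ) = α * ((k * p : ℕ) : ℤ) + β * f (k * p) := by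
      unfold comb
      exact Int.toNat_of_nonneg p1.le
    rw [e3, hmul k p c1]
    push_cast
    rw [hprime p hp]
    ring

theorem deriv_growth : ∀ ε : ℝ, 0 < ε → ∃ C : ℝ, ∀ m : ℕ, 1 ≤ m → (deriv m : ℝ) ≤ C * (m : ℝ) ^ (1 + ε) := by
  intro ε hε
  refine ⟨1 / ε, fun m hm => (deriv_le m hm).trans ?_⟩
  have hm0 : (0 : ℝ) < m := by exact_mod_cast hm
  have h1 := Real.log_le_rpow_div hm0.le hε
  rw [Real.rpow_add hm0, Real.rpow_one]
  calc (m : ℝ) * Real.log m ≤ m * ((m : ℝ) ^ ε / ε) := mul_le_mul_of_nonneg_left h1 hm0.le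
    _ = _ := by ring

/-- `α m + β m'` -/
theorem lin_der {α β : ℤ} (hpos : ∀ m : ℕ, 2 ≤ m → 0 < α * m + β * deriv m) : Lin (comb α β deriv) := by
  refine ⟨fun k => α * k + β * deriv k, fun k => β * k + 0 * deriv k, 0, fun s hs => ?_, ?_⟩
  · obtain ⟨K₁, h1⟩ := pow_growth deriv_growth α β s hs
    obtain ⟨K₂, h2⟩ := pow_growth deriv_growth β 0 s hs
    refine ⟨max K₁ K₂, fun k hk => ⟨(h1 k hk).trans ?_, (h2 k hk).trans ?_⟩⟩
    · exact mul_le_mul_of_nonneg_right (le_max_left _ _) (by positivity)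
    · exact mul_le_mul_of_nonneg_right (le_max_right _ _) (by positivity)
  · intro k p hk hp _ hpk
    have c1 : Nat.Coprime k p := ((Nat.Prime.coprime_iff_not_dvd hp).2 hpk).symm
    have hkp : 2 ≤ k * p := le_trans hk (Nat.le_mul_of_pos_right k hp.pos)
    have p1 := hpos (k * p) hkp
    have e3 : ((comb α β deriv (k * p) : ℕ) : ℤ) = α * ((k * p : ℕ) : ℤ) + β * deriv (k * p) := by
      unfold comb
      exact Int.toNat_of_nonneg p1.le
    rw [e3, deriv_mul k p c1, deriv_prime p hp]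
    push_cast
    ring

theorem tot_growth : ∀ ε : ℝ, 0 < ε → ∃ C : ℝ, ∀ m : ℕ, 1 ≤ m → (Nat.totient m : ℝ) ≤ C * (m : ℝ) ^ (1 + ε) := by
  intro ε hε
  refine ⟨1, fun m hm => ?_⟩
  have hm1 : (1 : ℝ) ≤ m := by exact_mod_cast hm
  rw [one_mul]
  calc (Nat.totient m : ℝ) ≤ m := by exact_mod_cast Nat.totient_le m
    _ = (m : ℝ) ^ (1 : ℝ) := (Real.rpow_one _).symm
    _ ≤ _ := Real.rpow_le_rpow_of_exponent_le hm1 (by linarith)

theorem lin_sig {α β : ℤ} (hpos : ∀ m : ℕ, 2 ≤ m → 0 < α * m + β * sig m) : Lin (comb α β sig) :=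
  lin_mul sig_mul sig_prime sig_growth hpos

theorem lin_tot {α β : ℤ} (hpos : ∀ m : ℕ, 2 ≤ m → 0 < α * m + β * Nat.totient m) : Lin (comb α β Nat.totient) := by
  refine lin_mul (c := -1) (fun m n h => Nat.totient_mul h) ?_ tot_growth hpos
  intro p hp
  rw [Nat.totient_prime hp, Nat.cast_sub hp.one_le]
  push_cast
  ring

theorem lin_aliquot : Lin aliquot := by
  rw [aliquot_eq]
  refine lin_sig fun m hm => ?_
  rw [sig_eq m]
  have : (0 : ℤ) < aliquot m := by exact_mod_cast aliquot_pos m hm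
  push_cast
  linarith

theorem lin_cototient : Lin cototient := by
  rw [cototient_eq]
  refine lin_tot fun m hm => ?_
  have h : Nat.totient m < m := Nat.totient_lt m (by omega)
  have : (Nat.totient m : ℤ) < m := by exact_mod_cast h
  linarith

theorem lin_deriv : Lin deriv := by
  have e : deriv = comb 0 1 deriv := by
    funext m
    unfold comb
    simp
  rw [e]
  refine lin_der fun m hm => ?_
  have : (0 : ℤ) < deriv m := by exact_mod_cast deriv_pos m hm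
  linarith

/-- functions with `g m ≥ m / p` for the prime factors `p` of `m` are big for nearly all `m` -/
theorem big_of {g : ℕ → ℕ} (hg : ∀ m p : ℕ, 2 ≤ m → p.Prime → p ∣ m → m / p ≤ g m) : Big g := by
  classical
  intro σ ε hσ hε
  obtain ⟨N₁, hN₁⟩ := Run7.h527.AD.few_rough (ε / 2) (by positivity)
  obtain ⟨m₁, hm₁⟩ := eventually_atTop.1 ((isLittleO_log_rpow_atTop hσ).bound one_pos)
  obtain ⟨m₂, hm₂⟩ := exists_nat_ge (max m₁ 2)
  obtain ⟨N₂, hN₂⟩ := exists_nat_ge (2 * (m₂ : ℝ) / ε)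
  refine ⟨max N₁ N₂, fun N hN => ?_⟩
  have h1 := hN₁ N ((le_max_left _ _).trans hN)
  have h2 : (N₂ : ℝ) ≤ N := by exact_mod_cast (le_max_right _ _).trans hN
  have h3 : (m₂ : ℝ) ≤ ε / 2 * N := by
    have h4 := hN₂.trans h2
    rw [div_le_iff₀ hε] at h4
    linarith
  have hsub : {m : ℕ | 1 ≤ m ∧ m ≤ N ∧ ¬ (m : ℝ) ^ (1 - σ) ≤ g m} ⊆
      (((Icc 1 N).filter (fun m => ¬ ∃ p : ℕ, p.Prime ∧ p ∣ m ∧ (p : ℝ) ≤ Real.log m) ∪ Icc 1 m₂ : Finset ℕ) : Set ℕ) := by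
    rintro m ⟨q1, q2, q3⟩
    rw [coe_union, Set.mem_union, mem_coe, mem_coe, mem_filter, mem_Icc, mem_Icc]
    by_cases hm : m ≤ m₂
    · exact Or.inr ⟨q1, hm⟩
    · left
      refine ⟨⟨q1, q2⟩, ?_⟩
      rintro ⟨p, hp, hpm, hpl⟩
      apply q3
      have r1 : (m₂ : ℝ) < m := by exact_mod_cast not_le.1 hm
      have r2 : m₁ ≤ m := by linarith [le_max_left m₁ 2]
      have r3 : (2 : ℝ) ≤ m := by linarith [le_max_right m₁ 2]
      have r3' : 2 ≤ m := by exact_mod_cast r3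
      have hm0 : (0 : ℝ) < m := by linarith
      have r4 := hm₁ m r2
      rw [one_mul, Real.norm_of_nonneg (Real.log_nonneg (by linarith)), Real.norm_of_nonneg (by positivity)] at r4
      have r5 : (p : ℝ) ≤ (m : ℝ) ^ σ := hpl.trans r4
      have hp0 : (0 : ℝ) < p := by exact_mod_cast hp.pos
      have r6 := hg m p r3' hp hpm
      have r7 : ((m / p : ℕ) : ℝ) = (m : ℝ) / p := Nat.cast_div hpm hp0.ne'
      calc (m : ℝ) ^ (1 - σ) = (m : ℝ) / (m : ℝ) ^ σ := by rw [Real.rpow_sub hm0, Real.rpow_one]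
        _ ≤ (m : ℝ) / p := div_le_div_of_nonneg_left hm0.le hp0 r5
        _ = ((m / p : ℕ) : ℝ) := r7.symm
        _ ≤ g m := by exact_mod_cast r6
  have h4 := Set.ncard_le_ncard hsub (finite_toSet _)
  rw [Set.ncard_coe_finset] at h4
  have h5 := h4.trans (card_union_le _ _)
  rw [Nat.card_Icc, Nat.add_sub_cancel] at h5
  have h6 : ({m : ℕ | 1 ≤ m ∧ m ≤ N ∧ ¬ (m : ℝ) ^ (1 - σ) ≤ g m}.ncard : ℝ) ≤
      (((Icc 1 N).filter (fun m => ¬ ∃ p : ℕ, p.Prime ∧ p ∣ m ∧ (p : ℝ) ≤ Real.log m)).card : ℝ) + m₂ := by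
    exact_mod_cast h5
  have h7 : (((Icc 1 N).filter (fun m => ¬ ∃ p : ℕ, p.Prime ∧ p ∣ m ∧ (p : ℝ) ≤ Real.log m)).card : ℝ) ≤ ε / 2 * N := by
    refine le_trans (le_of_eq ?_) h1
    congr!
  linarith

theorem big_aliquot : Big aliquot := by
  refine big_of fun m p hm hp hpm => ?_
  unfold aliquot
  have h1 : m / p ∈ m.properDivisors := by
    rw [Nat.mem_properDivisors]
    exact ⟨Nat.div_dvd_of_dvd hpm, Nat.div_lt_self (by omega) hp.one_lt⟩
  exact single_le_sum (f := fun d => d) (fun _ _ => Nat.zero_le _) h1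

theorem big_deriv : Big deriv := by
  refine big_of fun m p hm hp hpm => ?_
  have h1 : p ∈ m.primeFactors := by
    rw [Nat.mem_primeFactors]
    exact ⟨hp, hpm, by omega⟩
  have h2 : 1 ≤ m.factorization p := (hp.dvd_iff_one_le_factorization (by omega)).1 hpm
  unfold Run7.h527.TP.deriv
  calc m / p ≤ m.factorization p * (m / p) := Nat.le_mul_of_pos_left _ (by omega)
    _ ≤ _ := single_le_sum (f := fun p => m.factorization p * (m / p)) (fun _ _ => Nat.zero_le _) h1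

theorem big_cototient : Big cototient := by
  refine big_of fun m p hm hp hpm => ?_
  unfold cototient
  have h1 : Nat.totient m + m / p ≤ m := by
    have h2 : (range (m / p)).image (fun i => p * i) ⊆ (range m).filter (fun a => ¬ Nat.Coprime m a) := by
      intro x hx
      rw [mem_image] at hx
      obtain ⟨i, hi, rfl⟩ := hx
      rw [mem_range] at hi
      rw [mem_filter, mem_range]
      constructor
      · calc p * i < p * (m / p) := Nat.mul_lt_mul_of_pos_left hi hp.pos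
          _ = m := Nat.mul_div_cancel' hpm
      · intro hc
        exact Nat.not_coprime_of_dvd_of_dvd hp.one_lt hpm (dvd_mul_right p i) hc
    have h3 : ((range (m / p)).image (fun i => p * i)).card = m / p := by
      rw [card_image_of_injective _ (fun i j hij => Nat.eq_of_mul_eq_mul_left hp.pos hij), card_range]
    have h4 := card_le_card h2
    rw [h3] at h4
    have h5 := card_filter_add_card_filter_not (s := range m) (fun a => Nat.Coprime m a)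
    rw [card_range] at h5
    have h6 : Nat.totient m = ((range m).filter (fun a => Nat.Coprime m a)).card := Nat.totient_eq_card_coprime m
    omega
  omega

/-- positive combinations are big -/
theorem big_comb (α β : ℤ) (hα : 1 ≤ α) (hβ : 0 ≤ β) (f : ℕ → ℕ) : Big (comb α β f) := by
  refine big_of fun m p hm hp hpm => ?_
  have h1 : m / p ≤ m := Nat.div_le_self _ _
  have h2 : (m : ℤ) ≤ α * m + β * f m := by
    have h3 : (0 : ℤ) ≤ β * f m := by positivity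
    nlinarith
  unfold comb
  omega

/-- two large primes, hence one -/
lemma one_of_two {τ : ℝ} (hτ : 0 < τ) {m : ℕ} (h : Two τ m) : One (τ / 2) m := by
  obtain ⟨k, p, q, hk, hp, hq, hpq, hpk, hqk, rfl, hle⟩ := h
  have key : ∀ p q : ℕ, p.Prime → q.Prime → p ≠ q → ¬ p ∣ k → q ≤ p → ((k * p * q : ℕ) : ℝ) ^ τ ≤ ((p * q : ℕ) : ℝ) →
      One (τ / 2) (k * p * q) := by
    intro p q hp hq hpq hpk hqp h1
    refine ⟨k * q, p, le_trans hk (Nat.le_mul_of_pos_right k hq.pos), hp, ?_, by ring, ?_⟩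
    · intro h2
      rcases (Nat.Prime.dvd_mul hp).1 h2 with h3 | h3
      · exact hpk h3
      · exact hpq ((Nat.prime_dvd_prime_iff_eq hp hq).1 h3)
    · have h2 : ((k * p * q : ℕ) : ℝ) ^ (τ / 2) * ((k * p * q : ℕ) : ℝ) ^ (τ / 2) = ((k * p * q : ℕ) : ℝ) ^ τ := by
        rw [← Real.rpow_add (by
          have : 0 < k * p * q := Nat.mul_pos (Nat.mul_pos (by omega) hp.pos) hq.pos
          exact_mod_cast this)]
        congr 1
        ring
      have h3 : ((p * q : ℕ) : ℝ) ≤ (p : ℝ) * p := by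
        push_cast
        exact mul_le_mul_of_nonneg_left (by exact_mod_cast hqp) (Nat.cast_nonneg _)
      have h4 : (0 : ℝ) ≤ ((k * p * q : ℕ) : ℝ) ^ (τ / 2) := by positivity
      exact (mul_self_le_mul_self_iff h4 (Nat.cast_nonneg _)).2 (by rw [h2]; exact h1.trans h3)
  rcases le_total q p with h1 | h1
  · exact key p q hp hq hpq hpk h1 hle
  · have h2 := key q p hq hp hpq.symm hqk h1 (by
      rw [show k * q * p = k * p * q by ring, mul_comm q p]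
      exact hle)
    rw [show k * q * p = k * p * q by ring] at h2
    exact h2

/-- from `LogThin` to the number of the elements -/
lemma of_logThin {E : Set ℕ} (hE : LogThin E) (U : ℕ) : ∃ N₀ : ℕ, ∀ N : ℕ, N₀ ≤ N →
    ({m : ℕ | 1 ≤ m ∧ m ≤ N ∧ m ∈ E}.ncard : ℝ) ≤ N / Real.log N ^ U := by
  classical
  obtain ⟨K, hK⟩ := hE (U + 1)
  obtain ⟨N₀, hN₀⟩ := exists_nat_ge (Real.exp (|K| + 1))
  refine ⟨N₀, fun N hN => ?_⟩
  have hN0' : Real.exp (|K| + 1) ≤ N := hN₀.trans (by exact_mod_cast hN)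
  have hN0 : (0 : ℝ) < N := lt_of_lt_of_le (Real.exp_pos _) hN0'
  have hN1 : 1 ≤ N := by exact_mod_cast hN0
  have hl : |K| + 1 ≤ Real.log N := by
    rw [Real.le_log_iff_exp_le hN0]
    exact hN0'
  have hK0 := abs_nonneg K
  have h2 := hK N hN1
  have h3 : {m : ℕ | 1 ≤ m ∧ m ≤ N ∧ m ∈ E} ⊆ (((range (N + 1)).filter (fun v => v ∈ E) : Finset ℕ) : Set ℕ) := by
    rintro m ⟨hm1, hmN, hm⟩
    rw [mem_coe, mem_filter, mem_range]
    exact ⟨by omega, hm⟩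
  have h4 := Set.ncard_le_ncard h3 (finite_toSet _)
  rw [Set.ncard_coe_finset] at h4
  have h5 : ({m : ℕ | 1 ≤ m ∧ m ≤ N ∧ m ∈ E}.ncard : ℝ) ≤ K * N / (1 + Real.log N) ^ (U + 1) := by
    refine le_trans (show _ ≤ ((((range (N + 1)).filter (fun v => v ∈ E)).card : ℕ) : ℝ) by exact_mod_cast h4)
      (le_trans (le_of_eq ?_) h2)
    congr!
  refine h5.trans ?_
  have h6 : K * N ≤ Real.log N * N := mul_le_mul_of_nonneg_right (by linarith [le_abs_self K]) hN0.le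
  have hl0 : 0 < Real.log N := by linarith
  calc K * N / (1 + Real.log N) ^ (U + 1) ≤ Real.log N * N / (1 + Real.log N) ^ (U + 1) := by gcongr
    _ ≤ Real.log N * N / Real.log N ^ (U + 1) := by
        apply div_le_div_of_nonneg_left (by positivity) (by positivity)
        exact pow_le_pow_left₀ hl0.le (by linarith) _
    _ = N / Real.log N ^ U := by
        rw [pow_succ]
        field_simp

/-- a property which fails rarely for the integers with a large prime factor and a big value fails rarely -/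
theorem nearly_all {τ ε σ : ℝ} (hτ : 0 < τ) (hε : 0 < ε) (hσ : 0 < σ) (hd : ∃ N₀ : ℕ, ∀ N : ℕ, N₀ ≤ N →
      ({m : ℕ | 1 ≤ m ∧ m ≤ N ∧ ¬ Two τ m}.ncard : ℝ) ≤ ε / 3 * N) {g : ℕ → ℕ} (hg : Big g) (Q : ℕ → Prop)
    (h : LogThin {m : ℕ | One (τ / 2) m ∧ (m : ℝ) ^ (1 - σ) ≤ g m ∧ Q m}) :
    ∃ N₀ : ℕ, ∀ N : ℕ, N₀ ≤ N → ({m : ℕ | 1 ≤ m ∧ m ≤ N ∧ Q m}.ncard : ℝ) ≤ ε * N := by
  obtain ⟨N₁, hN₁⟩ := hd
  obtain ⟨N₂, hN₂⟩ := hg σ (ε / 3) hσ (by positivity)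
  obtain ⟨N₃, hN₃⟩ := of_logThin h 1
  obtain ⟨N₄, hN₄⟩ := exists_nat_ge (Real.exp (3 / ε))
  refine ⟨max (max N₁ N₂) (max N₃ N₄), fun N hN => ?_⟩
  have h1 := hN₁ N (((le_max_left _ _).trans (le_max_left _ _)).trans hN)
  have h2 := hN₂ N (((le_max_right _ _).trans (le_max_left _ _)).trans hN)
  have h3 := hN₃ N (((le_max_left _ _).trans (le_max_right _ _)).trans hN)
  have h4 : N₄ ≤ N := ((le_max_right _ _).trans (le_max_right _ _)).trans hN
  have h5 : Real.exp (3 / ε) ≤ N := hN₄.trans (by exact_mod_cast h4)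
  have hN0 : (0 : ℝ) < N := lt_of_lt_of_le (Real.exp_pos _) h5
  have h6 : 3 / ε ≤ Real.log N := by
    rw [Real.le_log_iff_exp_le hN0]
    exact h5
  have h7 : (N : ℝ) / Real.log N ^ 1 ≤ ε / 3 * N := by
    rw [pow_one, div_le_iff₀ (lt_of_lt_of_le (by positivity) h6)]
    rw [div_le_iff₀ hε] at h6
    nlinarith
  have hsub : {m : ℕ | 1 ≤ m ∧ m ≤ N ∧ Q m} ⊆ ({m : ℕ | 1 ≤ m ∧ m ≤ N ∧ ¬ Two τ m} ∪
      {m : ℕ | 1 ≤ m ∧ m ≤ N ∧ ¬ (m : ℝ) ^ (1 - σ) ≤ g m}) ∪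
      {m : ℕ | 1 ≤ m ∧ m ≤ N ∧ m ∈ {m : ℕ | One (τ / 2) m ∧ (m : ℝ) ^ (1 - σ) ≤ g m ∧ Q m}} := by
    rintro m ⟨e1, e2, e3⟩
    by_cases hT : Two τ m
    · by_cases hB : (m : ℝ) ^ (1 - σ) ≤ g m
      · exact Or.inr ⟨e1, e2, one_of_two hτ hT, hB, e3⟩
      · exact Or.inl (Or.inr ⟨e1, e2, hB⟩)
    · exact Or.inl (Or.inl ⟨e1, e2, hT⟩)
  have hfin : (({m : ℕ | 1 ≤ m ∧ m ≤ N ∧ ¬ Two τ m} ∪
      {m : ℕ | 1 ≤ m ∧ m ≤ N ∧ ¬ (m : ℝ) ^ (1 - σ) ≤ g m}) ∪
      {m : ℕ | 1 ≤ m ∧ m ≤ N ∧ m ∈ {m : ℕ | One (τ / 2) m ∧ (m : ℝ) ^ (1 - σ) ≤ g m ∧ Q m}}).Finite :=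
    (Set.finite_Icc 1 N).subset fun m hm => by
      rcases hm with (hm | hm) | hm
      · exact ⟨hm.1, hm.2.1⟩
      · exact ⟨hm.1, hm.2.1⟩
      · exact ⟨hm.1, hm.2.1⟩
  have h8 := (Set.ncard_le_ncard hsub hfin).trans ((Set.ncard_union_le _ _).trans
    (Nat.add_le_add_right (Set.ncard_union_le _ _) _))
  have h9 : ({m : ℕ | 1 ≤ m ∧ m ≤ N ∧ Q m}.ncard : ℝ) ≤ (({m : ℕ | 1 ≤ m ∧ m ≤ N ∧ ¬ Two τ m}.ncard : ℝ) +
      ({m : ℕ | 1 ≤ m ∧ m ≤ N ∧ ¬ (m : ℝ) ^ (1 - σ) ≤ g m}.ncard : ℝ)) +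
      ({m : ℕ | 1 ≤ m ∧ m ≤ N ∧ m ∈ {m : ℕ | One (τ / 2) m ∧ (m : ℝ) ^ (1 - σ) ≤ g m ∧ Q m}}.ncard : ℝ) := by
    exact_mod_cast h8
  linarith

end Run7.h527.LP
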