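import Mathlib
import Pool.Agent.Run7.h613.NG.Defs
import Pool.Agent.Run7.h527.LP.C

set_option autoImplicit false

/-! Typical properties of real numbers (`Run7/h613/NG`) near the values of functions which are linear in a large prime factor
(helper527). -/

namespace Run7.h527.LP

open Finset Filter MeasureTheory Topology
open Run7.h613.NG (Typical Thin)
open Pool.Agent.N733.TG (Expanding step_sum)
open Pool.Agent.N375.AV (LogThin)
open Run7.h527.TP (density)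

/-- the measure of the set where a typical property fails -/
theorem meas_typical {s : ℝ} (hs0 : 0 < s) (hs1 : s < 1) {Q : ℝ → Prop} (h : Typical s Q) (U : ℕ) :
    ∃ T₀ : ℝ, ∀ T : ℝ, T₀ ≤ T → volume ({t : ℝ | ¬ Q t} ∩ Set.Icc T (2 * T)) ≤
      ENNReal.ofReal (T / Real.log T ^ U) := by
  obtain ⟨S, T₁, hS, hQ⟩ := h
  obtain ⟨ε, hε⟩ : ∃ x : ℝ, x = (1 - s) / 2 := ⟨_, rfl⟩
  have hε0 : 0 < ε := by linarith
  obtain ⟨C, hC⟩ := hS ε hε0
  have e1 : ∀ᶠ T : ℝ in atTop, |C| * 2 ^ (s + ε) * T ^ (s + ε) * Real.log T ^ U ≤ T := by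
    have h1 := isLittleO_log_rpow_rpow_atTop (U : ℝ) (show 0 < ε / 2 by positivity)
    have h2 := (tendsto_rpow_atTop (show 0 < ε / 2 by positivity)).eventually (eventually_ge_atTop (|C| * 2 ^ (s + ε)))
    filter_upwards [h1.bound one_pos, h2, eventually_ge_atTop (1 : ℝ)] with T h3 h4 h5
    have hT0 : 0 < T := by linarith
    have hl0 : 0 ≤ Real.log T ^ U := pow_nonneg (Real.log_nonneg h5) _
    rw [one_mul, Real.rpow_natCast, Real.norm_of_nonneg (pow_nonneg (Real.log_nonneg h5) _),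
      Real.norm_of_nonneg (by positivity)] at h3
    calc |C| * 2 ^ (s + ε) * T ^ (s + ε) * Real.log T ^ U ≤ T ^ (ε / 2) * T ^ (s + ε) * T ^ (ε / 2) := by
          gcongr
      _ = T ^ (1 : ℝ) := by
          rw [← Real.rpow_add hT0, ← Real.rpow_add hT0]
          congr 1
          linarith
      _ = T := Real.rpow_one T
  obtain ⟨T₂, hT₂⟩ := eventually_atTop.1 (e1.and ((eventually_ge_atTop T₁).and (eventually_ge_atTop (3 : ℝ))))
  refine ⟨T₂, fun T hT => ?_⟩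
  obtain ⟨g1, g2, g3⟩ := hT₂ T hT
  have hT0 : 0 < T := by linarith
  have hX1 : 1 ≤ ⌊2 * T⌋₊ := Nat.le_floor (by push_cast; linarith)
  obtain ⟨F, hF1, hF2⟩ := hC ⌊2 * T⌋₊ hX1
  have hsub : {t : ℝ | ¬ Q t} ∩ Set.Icc T (2 * T) ⊆ ⋃ n ∈ F, Set.Ico (n : ℝ) (n + 1) := by
    rintro t ⟨ht1, ht2, ht3⟩
    have h1 : ⌊t⌋₊ ∈ S := by
      by_contra hcon
      exact ht1 (hQ t (g2.trans ht2) hcon)
    have h2 : ⌊t⌋₊ ∈ F := hF1 _ (Nat.floor_le_floor ht3) h1
    exact Set.mem_biUnion h2 ⟨Nat.floor_le (by linarith), Nat.lt_floor_add_one t⟩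
  have hX2 : ((⌊2 * T⌋₊ : ℕ) : ℝ) ≤ 2 * T := Nat.floor_le (by linarith)
  have hcard : (F.card : ℝ) ≤ T / Real.log T ^ U := by
    have hl : 0 < Real.log T := Real.log_pos (by linarith)
    rw [le_div_iff₀ (by positivity)]
    refine le_trans ?_ g1
    apply mul_le_mul_of_nonneg_right _ (by positivity)
    calc (F.card : ℝ) ≤ C * ((⌊2 * T⌋₊ : ℕ) : ℝ) ^ (s + ε) := hF2
      _ ≤ |C| * ((⌊2 * T⌋₊ : ℕ) : ℝ) ^ (s + ε) := mul_le_mul_of_nonneg_right (le_abs_self _) (by positivity)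
      _ ≤ |C| * (2 * T) ^ (s + ε) := by gcongr
      _ = |C| * 2 ^ (s + ε) * T ^ (s + ε) := by rw [Real.mul_rpow (by norm_num) hT0.le]; ring
  calc volume ({t : ℝ | ¬ Q t} ∩ Set.Icc T (2 * T)) ≤ volume (⋃ n ∈ F, Set.Ico (n : ℝ) (n + 1)) := measure_mono hsub
    _ ≤ ∑ n ∈ F, volume (Set.Ico (n : ℝ) (n + 1)) := measure_biUnion_finset_le _ _
    _ = ENNReal.ofReal F.card := by
        simp only [Real.volume_Ico, add_sub_cancel_left, sum_const, nsmul_eq_mul, ENNReal.ofReal_one, mul_one,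
          ENNReal.ofReal_natCast]
    _ ≤ _ := ENNReal.ofReal_le_ofReal hcard

/-- every interval `(a, b]` of length at least `C T ^ η` in `[T - T ^ (η + κ), T + T ^ (η + κ)]` has the property `P a b` -/
def AroundC (C η κ T : ℝ) (P : ℝ → ℝ → Prop) : Prop :=
  ∀ a b : ℝ, T - T ^ (η + κ) ≤ a → b ≤ T + T ^ (η + κ) → C * T ^ η ≤ b - a → P a b

/-- near an exceptional point all points of a long interval are exceptional -/
lemma around_spread {η κ : ℝ} (hη : 0 < η) (hκ : 0 < κ) (h1 : η + κ ≤ 1) (P : ℝ → ℝ → Prop) {G : ℕ → ℝ}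
    (hG : Expanding G 1) : ∃ v₀ : ℕ, ∀ v : ℕ, v₀ ≤ v → ∀ T : ℝ, |T - G v| ≤ (v : ℝ) ^ (η + κ / 2) →
      ¬ AroundC 2 η (κ / 2) T P →
      Set.Icc (G v + (v : ℝ) ^ (η + κ / 2)) (G v + (v : ℝ) ^ (η + 3 * κ / 4)) ⊆ {t : ℝ | ¬ AroundC 1 η κ t P} := by
  obtain ⟨a, ha, hstep⟩ := hG.step
  obtain ⟨C, hC⟩ := hG.growth
  obtain ⟨M, hM⟩ : ∃ M : ℝ, M = |C| + 3 := ⟨_, rfl⟩
  have hM0 : 0 < M := by rw [hM]; positivity
  have hpow : ∀ {x : ℝ}, 0 < x → Tendsto (fun v : ℕ => (v : ℝ) ^ x) atTop atTop := fun hx =>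
    (tendsto_rpow_atTop hx).comp tendsto_natCast_atTop_atTop
  have e1 := (hpow (show 0 < 1 - (η + 3 * κ / 4) by linarith)).eventually (eventually_ge_atTop (8 / a))
  have e2 := (hpow (show 0 < κ / 4 by linarith)).eventually
    (eventually_ge_atTop ((M ^ (η + κ / 2) + 2) / (a / 4) ^ (η + κ)))
  have e3 : ∀ᶠ v : ℕ in atTop, a - G 1 ≤ a / 2 * v :=
    (tendsto_natCast_atTop_atTop.const_mul_atTop (by positivity : 0 < a / 2)).eventually (eventually_ge_atTop _)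
  obtain ⟨v₀, hv₀⟩ := eventually_atTop.1 ((e1.and e2).and (e3.and (eventually_ge_atTop 1)))
  refine ⟨v₀, fun v hv T hT hbad t ht hcon => ?_⟩
  obtain ⟨⟨g1, g2⟩, g3, g5⟩ := hv₀ v hv
  have hv1 : (1 : ℝ) ≤ v := by exact_mod_cast g5
  have hv0 : (0 : ℝ) < v := by linarith
  obtain ⟨ht3, ht4⟩ := abs_le.1 hT
  obtain ⟨W, hW⟩ : ∃ W : ℝ, W = (v : ℝ) ^ (η + 3 * κ / 4) := ⟨_, rfl⟩
  have w1 : (v : ℝ) ^ (η + κ / 2) ≤ W := by
    rw [hW]
    exact Real.rpow_le_rpow_of_exponent_le hv1 (by linarith)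
  have w0 : 0 < W := by rw [hW]; positivity
  have w2 : W ≤ a / 8 * v := by
    have : W * (v : ℝ) ^ (1 - (η + 3 * κ / 4)) = v := by
      rw [hW, ← Real.rpow_add hv0, add_sub_cancel, Real.rpow_one]
    have h3 : W * (8 / a) ≤ v := by
      calc W * (8 / a) ≤ W * (v : ℝ) ^ (1 - (η + 3 * κ / 4)) := mul_le_mul_of_nonneg_left g1 w0.le
        _ = v := this
    rw [mul_div_assoc', div_le_iff₀ ha] at h3
    linarith
  rw [← hW] at ht
  have k2 : a / 2 * v ≤ G v := by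
    have h3 := step_sum hstep (le_refl 1) g5
    have h4 : ((v - 1 : ℕ) : ℝ) = v - 1 := by
      rw [Nat.cast_sub g5, Nat.cast_one]
    rw [h4] at h3
    linarith
  have hav : 0 < a * v := by positivity
  have k3 : a / 4 * v ≤ T := by linarith
  have hT0 : 0 < T := lt_of_lt_of_le (by positivity) k3
  have k5 : T ≤ t := by linarith [ht.1]
  have k6 : t - T ≤ 2 * W := by linarith [ht.2]
  have k3' : a / 4 * v ≤ t := k3.trans k5
  have k7 : t ≤ 2 * T := by linarith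
  have k8 : T ≤ M * v := by
    have h3 : G v ≤ |C| * v := by
      calc G v ≤ C * (v : ℝ) ^ (1 : ℝ) := hC v g5
        _ = C * v := by rw [Real.rpow_one]
        _ ≤ |C| * v := mul_le_mul_of_nonneg_right (le_abs_self _) hv0.le
    have h4 : (v : ℝ) ^ (η + κ / 2) ≤ v := by
      calc (v : ℝ) ^ (η + κ / 2) ≤ (v : ℝ) ^ (1 : ℝ) := Real.rpow_le_rpow_of_exponent_le hv1 (by linarith)
        _ = v := Real.rpow_one _
    rw [hM]
    linarith
  have k9 : T ^ (η + κ / 2) ≤ M ^ (η + κ / 2) * W := by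
    calc T ^ (η + κ / 2) ≤ (M * v) ^ (η + κ / 2) := Real.rpow_le_rpow hT0.le k8 (by linarith)
      _ = M ^ (η + κ / 2) * (v : ℝ) ^ (η + κ / 2) := Real.mul_rpow hM0.le hv0.le
      _ ≤ M ^ (η + κ / 2) * W := mul_le_mul_of_nonneg_left w1 (by positivity)
  have k10 : (M ^ (η + κ / 2) + 2) * W ≤ t ^ (η + κ) := by
    have hb : 0 < (a / 4) ^ (η + κ) := by positivity
    rw [div_le_iff₀ hb] at g2
    calc (M ^ (η + κ / 2) + 2) * W ≤ ((v : ℝ) ^ (κ / 4) * (a / 4) ^ (η + κ)) * W :=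
          mul_le_mul_of_nonneg_right g2 w0.le
      _ = (a / 4) ^ (η + κ) * ((v : ℝ) ^ (κ / 4) * W) := by ring
      _ = (a / 4) ^ (η + κ) * (v : ℝ) ^ (η + κ) := by
          rw [hW, ← Real.rpow_add hv0]
          congr 2
          ring
      _ = (a / 4 * v) ^ (η + κ) := by rw [Real.mul_rpow (by positivity) hv0.le]
      _ ≤ t ^ (η + κ) := Real.rpow_le_rpow (by positivity) k3' (by linarith)
  apply hbad
  intro x y hx hy hxy
  refine hcon x y (by linarith) (by linarith) ?_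
  rw [one_mul]
  calc t ^ η ≤ (2 * T) ^ η := Real.rpow_le_rpow (by linarith) k7 hη.le
    _ = 2 ^ η * T ^ η := Real.mul_rpow (by norm_num) hT0.le
    _ ≤ 2 * T ^ η := by
        apply mul_le_mul_of_nonneg_right _ (by positivity)
        calc (2 : ℝ) ^ η ≤ 2 ^ (1 : ℝ) := Real.rpow_le_rpow_of_exponent_le (by norm_num) (by linarith)
          _ = 2 := Real.rpow_one 2
    _ ≤ y - x := hxy

/-- the values with an exceptional point near them -/
def BadA (η κ : ℝ) (P : ℝ → ℝ → Prop) (G : ℕ → ℝ) : Set ℕ :=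
  {v : ℕ | ¬ ∀ T : ℝ, |T - G v| ≤ (v : ℝ) ^ (η + κ) → AroundC 2 η κ T P}

/-- **typical properties of short intervals near the values of functions which are linear in a large prime factor** -/
theorem around_windows {s η κ : ℝ} (hs0 : 0 < s) (hs1 : s < 1) (hη : 0 < η) (hη1 : η < 1) (hκ : 0 < κ)
    {P : ℝ → ℝ → Prop} (h : Typical s (fun T => AroundC 1 η κ T P)) :
    ∃ κ' : ℝ, 0 < κ' ∧ ∀ g : ℕ → ℕ, Lin g → ∀ G : ℕ → ℝ, Expanding G 1 → ∀ τ : ℝ, 1 - η ≤ τ → τ ≤ 1 →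
      ∃ σ : ℝ, 0 < σ ∧ LogThin {m : ℕ | One τ m ∧ (m : ℝ) ^ (1 - σ) ≤ g m ∧ g m ∈ BadA η κ' P G} := by
  obtain ⟨κ₀, hκ₀⟩ : ∃ x : ℝ, x = min κ (1 - η) := ⟨_, rfl⟩
  have k0 : 0 < κ₀ := by rw [hκ₀]; exact lt_min hκ (by linarith)
  have k1 : κ₀ ≤ κ := by rw [hκ₀]; exact min_le_left _ _
  have k2 : κ₀ ≤ 1 - η := by rw [hκ₀]; exact min_le_right _ _
  have h' : Typical s (fun T => AroundC 1 η κ₀ T P) := by
    obtain ⟨S, T₁, h1, h2⟩ := h
    refine ⟨S, max 1 T₁, h1, fun T hT hTS a b h3 h4 h5 => ?_⟩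
    have h6 : T ^ (η + κ₀) ≤ T ^ (η + κ) :=
      Real.rpow_le_rpow_of_exponent_le ((le_max_left _ _).trans hT) (by linarith)
    exact h2 T ((le_max_right _ _).trans hT) hTS a b (by linarith) (by linarith) h5
  refine ⟨κ₀ / 2, by linarith, fun g hg G hG τ hτ hτ1 => ?_⟩
  obtain ⟨v₀, hv₀⟩ := around_spread hη k0 (by linarith) P hG
  obtain ⟨σ, hσ, hL⟩ := lin_log (B := {t : ℝ | ¬ AroundC 1 η κ₀ t P}) (meas_typical hs0 hs1 h') hG hg
    (η := η + κ₀ / 2) (η' := η + 3 * κ₀ / 4) (τ := τ) (by linarith) (by linarith) (by linarith) hτ1 (by linarith)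
  refine ⟨σ, hσ, hL (BadA η (κ₀ / 2) P G) v₀ fun v hv hb => ?_⟩
  unfold BadA at hb
  rw [Set.mem_ofPred_eq] at hb
  push Not at hb
  obtain ⟨T, hT1, hT2⟩ := hb
  exact hv₀ v hv T hT1 hT2

end Run7.h527.LP
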